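import Pool.Agent.Lib.MP_6b55e5_an.OS.PL
import Pool.Agent.Lib.MP_6b55e5_an.OS.CS
import Pool.Agent.Lib.MP_6b55e5_an.OS.LM
import Pool.Agent.Lib.MP_6b55e5_an.OS.FA
import Pool.Agent.Lib.MP_6b55e5_an.OS.FIN

/-!
# Rogers's first question: one unit segment in every direction, and not coverable by thin strips

There is a set `E` in the plane which is the union of unit segments `[P e, P e + e]`, one for every direction
(the vectors `e` and `-e` have the same segment) and nothing else, which is bounded and of measure zero, and
which does not have property (S). Its closure is a compact Besicovitch set without property (S), and it is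
a union of closed unit segments.

Idea of the proof. The compact null set `N = {(x, y) : 0 ≤ x ≤ 1, y - x² ∈ C}`, `C` a Cantor set of dimension
`> 1/2`, is not coverable by strips of small total width (`Fat.lean`). Through every point `p` of `N` we put a
unit segment which starts at `p` and goes to the right, such that different points have segments of different
slopes and the union of the segments is a null set: for a small square `Q` and a slope `a` there is a compact
family of lines with slopes near `a`, with a line through every point of `Q`, such that the union of these lines
to the right of the left side of `Q` has an area not much bigger than the area of a parallelogram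
around `Q` (Venetian blinds whose poles move to the square from the right; `OS/Blind.lean`, `OS/PL.lean`). A
square `Q'` of the next level inside `Q` gets slopes in a tiny interval near a slope which was used in `Q`,
and different squares get disjoint intervals of slopes (`OS/CS.lean`); the squares which meet `N` have a small total
area. In the limit every point of `N` has a line of its own slope (`OS/LM.lean`). For the directions which
are not used we take segments of a Besicovitch set.
-/

set_option autoImplicit false

namespace Pool.Agent.Results.MP_6b55e5_an.OnePerDirection

open Pool.Agent.Lib.MP_6b55e5_an

/-- The union of the closed unit segments `[P e, P e + e]`, `e` a unit vector. -/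
def segments (P : Plane → Plane) : Set Plane :=
  ⋃ e ∈ {e : Plane | ‖e‖ = 1}, segment ℝ (P e) (P e + e)

/-- **Theorem.** Not every Besicovitch set has property (S). Moreover, there is a map `P` from the unit vectors to the points of the plane with `P (-e) = P e + e`, so that
`e` and `-e` have the same segment `[P e, P e + e]`, such that the union `E` of these segments is a
Besicovitch set without property (S). The closure of `E` is a compact Besicovitch set without property (S), and
each of its points lies on a closed unit segment contained in the closure. -/
theorem result : (¬ ∀ E : Set Plane, IsBesicovitch E → PropertyS E) ∧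
    ∃ P : Plane → Plane, (∀ e, ‖e‖ = 1 → P (-e) = P e + e) ∧
      IsBesicovitch (segments P) ∧ ¬ PropertyS (segments P) ∧
      IsCompact (closure (segments P)) ∧ IsBesicovitch (closure (segments P)) ∧
      ¬ PropertyS (closure (segments P)) ∧
      ∀ x ∈ closure (segments P), ∃ p e : Plane, ‖e‖ = 1 ∧ x ∈ segment ℝ p (p + e) ∧
        segment ℝ p (p + e) ⊆ closure (segments P) := by
  obtain ⟨P, h1, h2, h3, h4⟩ := OS.specFA (OS.specLM (OS.specCS OS.specPL))
  refine ⟨fun h => h4 (h _ h2), P, h1, h2, h4, h2.1.isCompact_closure, ⟨?_, h3, ?_⟩, ?_,
    OS.closure_segments P h2.1⟩
  · exact h2.1.isCompact_closure.isBounded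
  · intro e he
    obtain ⟨p, hp⟩ := h2.2.2 e he
    exact ⟨p, hp.trans subset_closure⟩
  · intro h
    apply h4
    intro ε hε
    obtain ⟨ι, hι, n, c, w, a1, a2, a3, a4, a5⟩ := h ε hε
    exact ⟨ι, hι, n, c, w, a1, a2, subset_closure.trans a3, a4, a5⟩

end Pool.Agent.Results.MP_6b55e5_an.OnePerDirection
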