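import Mathlib
import Pool.Agent.Lib.MP_6b55e5_an.Defs
import Pool.Agent.Lib.MP_6b55e5_an.Assemble

/-!
# Rogers's second question: a Besicovitch set with property (S)

There is a compact Besicovitch set which for every `ε > 0` can be covered by strips of total
width less than `ε`.
-/

namespace Pool.Agent.Results.MP_6b55e5_an.ThinStripCover

open Pool.Agent.Lib.MP_6b55e5_an

theorem result : ∃ E : Set Plane, IsCompact E ∧ IsBesicovitch E ∧ PropertyS E := by
  obtain ⟨φ, hφ, h⟩ := exists_family
  have hc := KS_isCompact hφ
  exact ⟨KS φ, hc, ⟨hc.isBounded, KS_null (Araw_null h), KS_segments φ⟩, KS_propertyS h⟩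

end Pool.Agent.Results.MP_6b55e5_an.ThinStripCover
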